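import Pool.Agent.Q105.BrG.Index

/-!
# MP_019d96_al: a non-torsion branch group with an Engel type iterated identity

We disprove Q1.  For the non-trivial word `w = [x₁, x₂⁻¹ x₁ x₂]` there is a finitely generated
branch group which satisfies the Engel type iterated identity `w` and contains an element of
infinite order.

The group acts on the regular tree over `ZMod 1024` and is generated by a rooted automorphism
`a` (acting as `x ↦ 1 - x`) and three automorphisms `b, c, d` directed along `000...`
(`b = (b at 0, a at 512)` over `x ↦ -x`, `c = (d at 0, a at 512)` over `x ↦ -x`, `d = (c at 0)`).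
The root action is metabelian, so three steps of the iteration go down one level, with
sections in the derived group; and word length is contracted by a factor 512 on sections.  The
average, over any orbit of `x₂`, of the length of the sections of the iterates is eventually
at most three, while a non-trivial element of the derived group has length at least four.  So
every orbit contains a vertex with trivial section, and this kills the iterates.
-/

namespace Pool.Agent.Results.MP_019d96_al.NontorsionIterated

/-- The Engel type iterates `e_k` of a word `w` in `n + 1` letters: `e_0 = x₁` and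
`e_{k+1} = w (e_k, x₂, …, x_{n+1})` (the letters are indexed from `0`). -/
def iter {n : ℕ} {G : Type*} [Group G] (w : FreeGroup (Fin (n + 1))) (x : Fin (n + 1) → G) :
    ℕ → G
  | 0 => x 0
  | k + 1 => FreeGroup.lift (Function.update x 0 (iter w x k)) w

/-- `G` satisfies the Engel type iterated identity `w`. -/
def SatisfiesIterated {n : ℕ} (w : FreeGroup (Fin (n + 1))) (G : Type*) [Group G] : Prop :=
  ∀ x : Fin (n + 1) → G, ∃ m : ℕ, iter w x m = 1

/-- The rigid stabiliser of the vertex `v` of the rooted tree of words over `X`: the elements
which fix every vertex that does not lie in the subtree rooted at `v` (the words `u` such that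
`v` is not an initial segment of `u`). -/
def rist (G X : Type*) [Group G] [MulAction G (List X)] (v : List X) : Set G :=
  {g | ∀ u : List X, ¬ v <+: u → g • u = u}

/-- The rigid stabiliser of the level `n`: the subgroup generated by the rigid stabilisers of
the vertices of level `n`. -/
def ristLevel (G X : Type*) [Group G] [MulAction G (List X)] (n : ℕ) : Subgroup G :=
  Subgroup.closure {g | ∃ v : List X, v.length = n ∧ g ∈ rist G X v}

/-- The action of `G` on the words over `X` is a faithful action on the regular rooted tree of
words over `X` (the root is the empty word, the children of `v` are the words `v x`) which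
makes `G` a branch group: it is transitive on every level and every rigid level stabiliser has
finite index. -/
structure IsBranchAction (G X : Type*) [Group G] [MulAction G (List X)] : Prop where
  faithful : ∀ g : G, (∀ u : List X, g • u = u) → g = 1
  level : ∀ (g : G) (u : List X), (g • u).length = u.length
  tree : ∀ (g : G) (u v : List X), u <+: v → g • u <+: g • v
  transitive : ∀ u v : List X, u.length = v.length → ∃ g : G, g • u = v
  finiteIndex : ∀ n : ℕ, (ristLevel G X n).FiniteIndex

/-- The word `[x₁, x₂⁻¹ x₁ x₂]`, where `[g, h] = g h g⁻¹ h⁻¹`. -/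
def word : FreeGroup (Fin 2) :=
  FreeGroup.of 0 * ((FreeGroup.of 1)⁻¹ * FreeGroup.of 0 * FreeGroup.of 1) *
    (FreeGroup.of 0)⁻¹ * ((FreeGroup.of 1)⁻¹ * FreeGroup.of 0 * FreeGroup.of 1)⁻¹

theorem word_ne : word ≠ 1 := by
  intro h
  have := congrArg (FreeGroup.lift
    (![Equiv.swap 0 1, Equiv.swap 1 2] : Fin 2 → Equiv.Perm (Fin 3))) h
  simp only [word, map_mul, map_inv, map_one, FreeGroup.lift_apply_of] at this
  revert this
  decide

open Pool.Agent.Q105 BrG

theorem iter_eq {H : Type*} [Group H] (x : Fin 2 → H) (k : ℕ) :
    iter word x k = (T (x 1))^[k] (x 0) := by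
  induction k with
  | zero => rfl
  | succ k ih =>
    rw [Function.iterate_succ_apply', ← ih]
    show FreeGroup.lift (Function.update x 0 (iter word x k)) word = _
    simp only [word, map_mul, map_inv, FreeGroup.lift_apply_of, Function.update_self, T, cm]
    rw [Function.update_of_ne (by decide)]

theorem coe_iter (M : ℕ) [NeZero M] (g h : G M) (k : ℕ) :
    (((T h)^[k] g : G M) : TAut (ZMod (2 * M))) = (T h.1)^[k] g.1 := by
  induction k with
  | zero => rfl
  | succ k ih =>
    rw [Function.iterate_succ_apply', Function.iterate_succ_apply', ← ih]
    rfl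

theorem fg (M : ℕ) [NeZero M] : Group.FG (G M) := by
  rw [Group.fg_iff_subgroup_fg, Subgroup.fg_iff]
  refine ⟨Set.range (A M), ?_, Set.finite_range _⟩
  apply le_antisymm
  · rw [Subgroup.closure_le]
    rintro _ ⟨s, rfl⟩
    exact A_mem M s
  · rintro _ ⟨l, rfl⟩
    induction l with
    | nil => exact Subgroup.one_mem _
    | cons s l ih =>
      rw [ev_cons]
      exact Subgroup.mul_mem _ (Subgroup.subset_closure ⟨s, rfl⟩) ih

theorem branch (M : ℕ) [NeZero M] : IsBranchAction (G M) (ZMod (2 * M)) where
  faithful g hg := Subtype.ext (TAut.eq_one_of_act hg)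
  level g u := TAut.length_act g.1 u
  tree g u v huv := by
    obtain ⟨w, rfl⟩ := huv
    exact ⟨_, (TAut.act_append g.1 u w).symm⟩
  transitive u v h := by
    obtain ⟨g, hg, e⟩ := level_trans M u v h
    exact ⟨⟨g, hg⟩, e⟩
  finiteIndex n := Rs_index M n

/-- **A finitely generated branch group which is not a torsion group and satisfies the Engel
type iterated identity `[x₁, x₂⁻¹ x₁ x₂]`.** -/
theorem result :
    word ≠ 1 ∧
    ∃ (G : Type) (_ : Group G) (X : Type) (_ : Fintype X) (_ : MulAction G (List X)),
      2 ≤ Fintype.card X ∧ IsBranchAction G X ∧ Group.FG G ∧ SatisfiesIterated word G ∧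
      ∃ g : G, ∀ n : ℕ, 0 < n → g ^ n ≠ 1 := by
  refine ⟨word_ne, G 512, inferInstance, ZMod (2 * 512), inferInstance, inferInstance, ?_,
    branch 512, fg 512, ?_, ⟨rho 512, rho_mem 512⟩, ?_⟩
  · rw [ZMod.card]; norm_num
  · intro x
    obtain ⟨k, hk⟩ := dies 512 (x 0).2 (x 1).2 (by norm_num)
    refine ⟨k, ?_⟩
    rw [iter_eq]
    apply Subtype.ext
    rw [coe_iter, hk]; rfl
  · intro n hn h
    apply rho_inf 512 n hn
    exact congrArg Subtype.val h

end Pool.Agent.Results.MP_019d96_al.NontorsionIterated
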